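import Mathlib

/-!
# Divisors of `x ^ n - 1`, `n` squarefree: the heights of `P_odd(n)` and `P_even(n)` are not extremal

Let `H(f)` be the height of an integer polynomial, the largest absolute value of a coefficient,
`B(n)` the largest height of a divisor of `x ^ n - 1`, and, for squarefree `n`, let `P_odd(n)`
and `P_even(n)` be the products of the cyclotomic polynomials `Φ_d` over the divisors `d` of `n`
with an odd, resp. even, number of prime factors. For `n = 10374 = 2 * 3 * 7 * 13 * 19` both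
`P_odd(n)` and `P_even(n)` have height `8415683487216`, and the divisor `(x - 1) P_odd(n)` of
`x ^ n - 1` has a coefficient of absolute value `9401697462912`.
-/

open Polynomial

namespace Pool.Agent.Results.MP_7b9a49_nt.FivePrimes

/-- The height of an integer polynomial: the largest absolute value of a coefficient. -/
def height (f : ℤ[X]) : ℕ := f.support.sup fun i => (f.coeff i).natAbs

/-- The product of the `Φ_d`, `d ∣ n` with an odd number of prime factors. -/
noncomputable def Podd (n : ℕ) : ℤ[X] :=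
  ∏ d ∈ n.divisors with Odd d.primeFactors.card, cyclotomic d ℤ

/-- The product of the `Φ_d`, `d ∣ n` with an even number of prime factors. -/
noncomputable def Peven (n : ℕ) : ℤ[X] :=
  ∏ d ∈ n.divisors with Even d.primeFactors.card, cyclotomic d ℤ

/-- The heights of the divisors of `x ^ n - 1`. -/
def heights (n : ℕ) : Set ℕ := {h | ∃ f : ℤ[X], f ∣ X ^ n - 1 ∧ height f = h}

/-! ### Bounds on the coefficients -/

/-- All coefficients are at most `M` in absolute value. -/
def Bd (M : ℕ) (f : ℤ[X]) : Prop := ∀ i, (f.coeff i).natAbs ≤ M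

theorem height_le {M : ℕ} {f : ℤ[X]} (h : Bd M f) : height f ≤ M :=
  Finset.sup_le fun i _ => h i

theorem le_height (f : ℤ[X]) (i : ℕ) : (f.coeff i).natAbs ≤ height f := by
  by_cases hi : i ∈ f.support
  · exact Finset.le_sup (f := fun i => (f.coeff i).natAbs) hi
  · rw [notMem_support_iff] at hi
    rw [hi]
    exact Nat.zero_le _

theorem Bd.mul_sub {M : ℕ} {f : ℤ[X]} (h : Bd M f) (e : ℕ) : Bd (2 * M) ((X ^ e - 1) * f) := by
  intro i
  rw [sub_mul, one_mul, coeff_sub, coeff_X_pow_mul']
  have h1 := h i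
  split_ifs with he
  · have h2 := h (i - e)
    omega
  · rw [zero_sub, Int.natAbs_neg]
    omega

/-- The product of the `X ^ e - 1`, `e` in a list. -/
noncomputable def prodE : List ℕ → ℤ[X]
  | [] => 1
  | e :: l => (X ^ e - 1) * prodE l

theorem Bd.mul_prodE {M : ℕ} {f : ℤ[X]} (h : Bd M f) (l : List ℕ) :
    Bd (2 ^ l.length * M) (prodE l * f) := by
  induction l with
  | nil => simpa [prodE] using h
  | cons e l ih =>
    have := ih.mul_sub e
    rw [List.length_cons, pow_succ, mul_comm (2 ^ l.length) 2, mul_assoc, prodE, mul_assoc]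
    exact this

theorem bd_one : Bd 1 (1 : ℤ[X]) := by
  intro i
  rw [coeff_one]
  split_ifs <;> simp

theorem bd_prodE (l : List ℕ) : Bd (2 ^ l.length) (prodE l) := by
  have := bd_one.mul_prodE l
  rwa [mul_one, mul_one] at this

theorem Bd.sub {M N : ℕ} {f g : ℤ[X]} (hf : Bd M f) (hg : Bd N g) : Bd (M + N) (f - g) := by
  intro i
  rw [coeff_sub]
  have := hf i
  have := hg i
  omega

/-- The value of `prodE` at a natural number. -/
def evl (B : ℕ) : List ℕ → ℕ
  | [] => 1
  | e :: l => (B ^ e - 1) * evl B l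

theorem eval_prodE {B : ℕ} (hB : 0 < B) (l : List ℕ) :
    (prodE l).eval (B : ℤ) = (evl B l : ℕ) := by
  induction l with
  | nil => simp [prodE, evl]
  | cons e l ih =>
    have h1 : 1 ≤ B ^ e := Nat.one_le_pow _ _ hB
    rw [prodE, evl, eval_mul, ih, Nat.cast_mul, Nat.cast_sub h1]
    simp

/-- A polynomial with small coefficients and a zero at `B` vanishes. -/
theorem eq_zero_of_eval {M B : ℕ} {q : ℤ[X]} (hq : Bd M q) (hM : M < B)
    (h : q.eval (B : ℤ) = 0) : q = 0 := by
  have hB : (B : ℤ) ≠ 0 := by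
    have : 0 < B := by omega
    exact_mod_cast this.ne'
  have key : ∀ k, q.coeff k = 0 := by
    intro k
    induction k using Nat.strong_induction_on with
    | _ k ih =>
      obtain ⟨r, hr⟩ := X_pow_dvd_iff.2 ih
      have hr0 : r.eval (B : ℤ) = 0 := by
        rw [hr, eval_mul, eval_pow, eval_X] at h
        exact (mul_eq_zero.1 h).resolve_left (pow_ne_zero _ hB)
      have hc : q.coeff k = r.coeff 0 := by
        rw [hr]
        have := coeff_X_pow_mul r k 0
        rwa [zero_add] at this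
      have hd : (B : ℤ) ∣ r.coeff 0 := by
        have := sub_dvd_eval_sub (B : ℤ) 0 r
        rw [hr0, sub_zero, zero_sub, ← coeff_zero_eq_eval_zero, dvd_neg] at this
        exact this
      rw [hc]
      have hb := hq k
      rw [hc] at hb
      rw [← Int.natAbs_eq_zero]
      have hd' : B ∣ (r.coeff 0).natAbs := by
        have := Int.natAbs_dvd_natAbs.2 hd
        rwa [Int.natAbs_natCast] at this
      exact Nat.eq_zero_of_dvd_of_lt hd' (by omega)
  ext k
  rw [key k, coeff_zero]

/-! ### Polynomials from digits -/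

/-- The polynomial whose coefficients, shifted by `K`, are the digits of `z` in base `B`. -/
noncomputable def poly (B K : ℕ) : ℕ → ℕ → ℤ[X]
  | 0, z => C ((z : ℤ) - K)
  | k + 1, z => poly B K k (z % B ^ (2 ^ k)) + X ^ (2 ^ k) * poly B K k (z / B ^ (2 ^ k))

/-- The number all of whose `2 ^ k` digits are one. -/
def Sg (B : ℕ) : ℕ → ℕ
  | 0 => 1
  | k + 1 => Sg B k * (1 + B ^ (2 ^ k))

/-- All digits are at most `2 K`. -/
def chk (B K : ℕ) : ℕ → ℕ → Bool
  | 0, z => decide (z ≤ 2 * K)
  | k + 1, z => chk B K k (z % B ^ (2 ^ k)) && chk B K k (z / B ^ (2 ^ k))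

/-- The coefficients of `poly`. -/
def cf (B K : ℕ) : ℕ → ℕ → ℕ → ℤ
  | 0, z, _ => (z : ℤ) - K
  | k + 1, z, i => if i < 2 ^ k then cf B K k (z % B ^ (2 ^ k)) i
      else cf B K k (z / B ^ (2 ^ k)) (i - 2 ^ k)

theorem eval_poly (B K k z : ℕ) :
    (poly B K k z).eval (B : ℤ) = (z : ℤ) - K * Sg B k := by
  induction k generalizing z with
  | zero => simp [poly, Sg]
  | succ k ih =>
    rw [poly, eval_add, eval_mul, ih, ih, eval_pow, eval_X, Sg]
    have h := Nat.mod_add_div z (B ^ (2 ^ k))
    have h' : ((z % B ^ (2 ^ k) : ℕ) : ℤ) + (B : ℤ) ^ (2 ^ k) * ((z / B ^ (2 ^ k) : ℕ) : ℤ)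
        = (z : ℤ) := by
      exact_mod_cast h
    push_cast at h' ⊢
    linear_combination h'

theorem coeff_poly_big (B K k z i : ℕ) (hi : 2 ^ k ≤ i) : (poly B K k z).coeff i = 0 := by
  induction k generalizing z i with
  | zero =>
    rw [poly, coeff_C, if_neg (by simp at hi; omega)]
  | succ k ih =>
    have h2 : 2 ^ (k + 1) = 2 ^ k + 2 ^ k := by ring
    rw [poly, coeff_add, coeff_X_pow_mul', if_pos (by omega), ih _ _ (by omega),
      ih _ _ (by omega), add_zero]

theorem coeff_poly (B K k z i : ℕ) (hi : i < 2 ^ k) : (poly B K k z).coeff i = cf B K k z i := by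
  induction k generalizing z i with
  | zero =>
    have : i = 0 := by simpa using hi
    rw [poly, cf, this, coeff_C_zero]
  | succ k ih =>
    have h2 : 2 ^ (k + 1) = 2 ^ k + 2 ^ k := by ring
    rw [poly, coeff_add, coeff_X_pow_mul', cf]
    by_cases h : i < 2 ^ k
    · rw [if_neg (by omega), if_pos h, add_zero, ih _ _ h]
    · rw [if_pos (by omega), if_neg h, coeff_poly_big _ _ _ _ _ (by omega), zero_add,
        ih _ _ (by omega)]

theorem bd_poly (B K k z : ℕ) (h : chk B K k z = true) : Bd K (poly B K k z) := by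
  induction k generalizing z with
  | zero =>
    intro i
    rw [chk, decide_eq_true_eq] at h
    rw [poly, coeff_C]
    split_ifs
    · omega
    · simp
  | succ k ih =>
    intro i
    rw [chk, Bool.and_eq_true] at h
    rw [poly, coeff_add, coeff_X_pow_mul']
    by_cases hi : 2 ^ k ≤ i
    · rw [if_pos hi, coeff_poly_big _ _ _ _ _ hi, zero_add]
      exact ih _ h.2 _
    · rw [if_neg hi, add_zero]
      exact ih _ h.1 _

/-- The main tool: a quotient of products of the `X ^ e - 1` is identified from its value. -/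
theorem eq_poly {B K k P : ℕ} {D N : List ℕ} {p : ℤ[X]} (hp : prodE D * p = prodE N)
    (hv : P * evl B D = evl B N) (hc : chk B K k (P + K * Sg B k) = true)
    (hD : evl B D ≠ 0) (hB : 2 ^ D.length * K + 2 ^ N.length < B) :
    p = poly B K k (P + K * Sg B k) := by
  have hB0 : 0 < B := lt_of_le_of_lt (Nat.zero_le _) hB
  have hbd := ((bd_poly B K k _ hc).mul_prodE D).sub (bd_prodE N)
  have hev : (prodE D * poly B K k (P + K * Sg B k) - prodE N).eval (B : ℤ) = 0 := by
    rw [eval_sub, eval_mul, eval_prodE hB0, eval_prodE hB0, eval_poly]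
    have : ((P * evl B D : ℕ) : ℤ) = (evl B N : ℕ) := by rw [hv]
    push_cast at this ⊢
    linear_combination this
  have h0 := eq_zero_of_eval hbd hB hev
  have h1 : prodE D * poly B K k (P + K * Sg B k) = prodE D * p := by
    rw [hp]
    exact sub_eq_zero.1 h0
  have hne : prodE D ≠ 0 := by
    intro h
    have := eval_prodE hB0 D
    rw [h, eval_zero] at this
    exact hD (by exact_mod_cast this.symm)
  exact (mul_left_cancel₀ hne h1).symm

/-! ### Products of cyclotomic polynomials -/

/-- The number of members of a list divisible by `d`. -/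
def cnt (d : ℕ) : List ℕ → ℕ
  | [] => 0
  | e :: l => (if d ∣ e then 1 else 0) + cnt d l

theorem X_pow_sub_one_eq {n e : ℕ} (hn : n ≠ 0) (he : e ∣ n) :
    (X ^ e - 1 : ℤ[X]) = ∏ d ∈ n.divisors, cyclotomic d ℤ ^ (if d ∣ e then 1 else 0) := by
  have he0 : 0 < e := Nat.pos_of_dvd_of_pos he (Nat.pos_of_ne_zero hn)
  have h : e.divisors = n.divisors.filter (fun d => d ∣ e) := by
    ext d
    simp only [Nat.mem_divisors, Finset.mem_filter]
    constructor
    · rintro ⟨h1, -⟩
      exact ⟨⟨h1.trans he, hn⟩, h1⟩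
    · rintro ⟨-, h1⟩
      exact ⟨h1, he0.ne'⟩
  rw [← prod_cyclotomic_eq_X_pow_sub_one he0, h, Finset.prod_filter]
  refine Finset.prod_congr rfl fun d _ => ?_
  split_ifs <;> simp

theorem prodE_eq {n : ℕ} (hn : n ≠ 0) (l : List ℕ) (hl : ∀ e ∈ l, e ∣ n) :
    prodE l = ∏ d ∈ n.divisors, cyclotomic d ℤ ^ cnt d l := by
  induction l with
  | nil => simp [prodE, cnt]
  | cons e l ih =>
    rw [prodE, ih (fun x hx => hl x (List.mem_cons_of_mem _ hx)),
      X_pow_sub_one_eq hn (hl e List.mem_cons_self), ← Finset.prod_mul_distrib]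
    refine Finset.prod_congr rfl fun d _ => ?_
    rw [cnt, pow_add]

theorem Podd_eq (n : ℕ) : Podd n =
    ∏ d ∈ n.divisors, cyclotomic d ℤ ^ (if Odd d.primeFactors.card then 1 else 0) := by
  rw [Podd, Finset.prod_filter]
  refine Finset.prod_congr rfl fun d _ => ?_
  split_ifs <;> simp

theorem Peven_eq (n : ℕ) : Peven n =
    ∏ d ∈ n.divisors, cyclotomic d ℤ ^ (if Even d.primeFactors.card then 1 else 0) := by
  rw [Peven, Finset.prod_filter]
  refine Finset.prod_congr rfl fun d _ => ?_
  split_ifs <;> simp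

theorem Podd_mul_Peven {n : ℕ} (hn : n ≠ 0) : Podd n * Peven n = X ^ n - 1 := by
  rw [X_pow_sub_one_eq hn dvd_rfl, Podd_eq, Peven_eq, ← Finset.prod_mul_distrib]
  refine Finset.prod_congr rfl fun d hd => ?_
  rw [if_pos (Nat.dvd_of_mem_divisors hd), ← pow_add]
  congr 1
  rcases Nat.even_or_odd d.primeFactors.card with h | h
  · rw [if_pos h, if_neg (Nat.not_odd_iff_even.2 h)]
  · rw [if_pos h, if_neg (Nat.not_even_iff_odd.2 h)]

/-! ### The number `10374` -/

/-- The primes. -/
def ps : Finset ℕ := {2, 3, 7, 13, 19}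

theorem prime_of_mem : ∀ p ∈ ps, p.Prime := by
  intro p hp
  simp only [ps, Finset.mem_insert, Finset.mem_singleton] at hp
  rcases hp with rfl | rfl | rfl | rfl | rfl <;> norm_num

theorem prod_ps : ∏ p ∈ ps, p = 10374 := by
  decide

theorem primeFactors_n : (10374 : ℕ).primeFactors = ps := by
  rw [← prod_ps]
  exact Nat.primeFactors_prod prime_of_mem

theorem squarefree_n : Squarefree 10374 := by
  rw [← prod_ps]
  refine Finset.squarefree_prod_of_pairwise_isCoprime ?_ ?_
  · intro a ha b hb hab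
    exact Nat.coprime_iff_isRelPrime.1
      ((Nat.coprime_primes (prime_of_mem a ha) (prime_of_mem b hb)).2 hab)
  · intro a ha
    exact (prime_of_mem a ha).squarefree

/-- The exponents in the denominator. -/
def LD : List ℕ := [1, 1, 1, 1, 1, 1, 1, 1, 1, 1, 1, 1, 1, 1, 1, 1, 6, 6, 6, 6, 14, 14, 14, 14,
  26, 26, 26, 26, 38, 38, 38, 38, 21, 21, 21, 21, 39, 39, 39, 39, 57, 57, 57, 57, 91, 91, 91, 91,
  133, 133, 133, 133, 247, 247, 247, 247, 546, 798, 1482, 3458, 5187]

/-- The exponents in the numerator. -/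
def LN : List ℕ := [2, 2, 2, 2, 2, 2, 2, 2, 3, 3, 3, 3, 3, 3, 3, 3, 7, 7, 7, 7, 7, 7, 7, 7,
  13, 13, 13, 13, 13, 13, 13, 13, 19, 19, 19, 19, 19, 19, 19, 19, 42, 42, 78, 78, 114, 114,
  182, 182, 266, 266, 494, 494, 273, 273, 399, 399, 741, 741, 1729, 1729]

theorem dvd_LD : ∀ e ∈ LD, e ∣ 10374 := by
  decide +kernel

theorem dvd_LN : ∀ e ∈ 10374 :: LN, e ∣ 10374 := by
  decide +kernel

theorem cnt_odd : ∀ S ∈ ps.powerset, cnt (∏ p ∈ S, p) LD + (if Odd S.card then 1 else 0)
    = cnt (∏ p ∈ S, p) (10374 :: LN) := by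
  decide +kernel

theorem cnt_even : ∀ S ∈ ps.powerset, cnt (∏ p ∈ S, p) LN + (if Even S.card then 1 else 0)
    = cnt (∏ p ∈ S, p) LD := by
  decide +kernel

theorem of_subsets {P : ℕ → ℕ → Prop} (h : ∀ S ∈ ps.powerset, P (∏ p ∈ S, p) S.card) :
    ∀ d ∈ Nat.divisors 10374, P d d.primeFactors.card := by
  intro d hd
  have hdvd := Nat.dvd_of_mem_divisors hd
  have hS : d.primeFactors ∈ ps.powerset := by
    rw [Finset.mem_powerset, ← primeFactors_n]
    exact Nat.primeFactors_mono hdvd (by norm_num)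
  have := h _ hS
  rwa [Nat.prod_primeFactors_of_squarefree (squarefree_n.squarefree_of_dvd hdvd)] at this

theorem identity_of {n : ℕ} (hn : n ≠ 0) {L M : List ℕ} (hL : ∀ e ∈ L, e ∣ n)
    (hM : ∀ e ∈ M, e ∣ n) {w : ℕ → ℕ} (h : ∀ d ∈ n.divisors, cnt d L + w d = cnt d M) :
    prodE L * ∏ d ∈ n.divisors, cyclotomic d ℤ ^ w d = prodE M := by
  rw [prodE_eq hn L hL, prodE_eq hn M hM, ← Finset.prod_mul_distrib]
  refine Finset.prod_congr rfl fun d hd => ?_
  rw [← pow_add, h d hd]

theorem podd_identity : prodE LD * Podd 10374 = prodE (10374 :: LN) := by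
  rw [Podd_eq]
  exact identity_of (by norm_num) dvd_LD dvd_LN
    (of_subsets (P := fun d w => cnt d LD + (if Odd w then 1 else 0) = cnt d (10374 :: LN))
      cnt_odd)

theorem peven_identity : prodE LN * Peven 10374 = prodE LD := by
  rw [Peven_eq]
  exact identity_of (by norm_num) (fun e he => dvd_LN e (List.mem_cons_of_mem _ he)) dvd_LD
    (of_subsets (P := fun d w => cnt d LN + (if Even w then 1 else 0) = cnt d LD) cnt_even)

/-- The base `2 ^ 128`. -/
abbrev BB : ℕ := 340282366920938463463374607431768211456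

/-- The height of `Podd 10374` and of `Peven 10374`. -/
abbrev KK : ℕ := 8415683487216

theorem c1 : evl BB (10374 :: LN) / evl BB LD * evl BB LD = evl BB (10374 :: LN) := by
  decide +kernel

theorem c2 : evl BB LD / evl BB LN * evl BB LN = evl BB LD := by
  decide +kernel

theorem c3 : chk BB KK 13 (evl BB (10374 :: LN) / evl BB LD + KK * Sg BB 13) = true := by
  decide +kernel

theorem c4 : chk BB KK 13 (evl BB LD / evl BB LN + KK * Sg BB 13) = true := by
  decide +kernel

theorem c5 : cf BB KK 13 (evl BB (10374 :: LN) / evl BB LD + KK * Sg BB 13) 2589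
    = 4572003374016 := by
  decide +kernel

theorem c6 : cf BB KK 13 (evl BB (10374 :: LN) / evl BB LD + KK * Sg BB 13) 2590
    = -4829694088896 := by
  decide +kernel

theorem c7 : evl BB LD ≠ 0 := by
  decide +kernel

theorem c8 : evl BB LN ≠ 0 := by
  decide +kernel

theorem podd_poly : Podd 10374
    = poly BB KK 13 (evl BB (10374 :: LN) / evl BB LD + KK * Sg BB 13) :=
  eq_poly podd_identity c1 c3 c7 (by decide +kernel)

theorem peven_poly : Peven 10374
    = poly BB KK 13 (evl BB LD / evl BB LN + KK * Sg BB 13) :=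
  eq_poly peven_identity c2 c4 c8 (by decide +kernel)

theorem height_podd : height (Podd 10374) ≤ KK := by
  rw [podd_poly]
  exact height_le (bd_poly _ _ _ _ c3)

theorem height_peven : height (Peven 10374) ≤ KK := by
  rw [peven_poly]
  exact height_le (bd_poly _ _ _ _ c4)

theorem height_f : 9401697462912 ≤ height ((X - 1) * Podd 10374) := by
  have h := le_height ((X - 1) * Podd 10374) (2589 + 1)
  rw [sub_mul, one_mul, coeff_sub, coeff_X_mul] at h
  have h1 : (Podd 10374).coeff 2589 = 4572003374016 := by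
    rw [podd_poly, coeff_poly _ _ _ _ _ (by norm_num), c5]
  have h2 : (Podd 10374).coeff (2589 + 1) = -4829694088896 := by
    rw [podd_poly, coeff_poly _ _ _ _ _ (by norm_num), c6]
  rw [h1, h2] at h
  rw [sub_mul, one_mul]
  exact h

theorem f_dvd : (X - 1) * Podd 10374 ∣ (X ^ 10374 - 1 : ℤ[X]) := by
  rw [← Podd_mul_Peven (by norm_num : (10374 : ℕ) ≠ 0), mul_comm]
  refine mul_dvd_mul_left _ ?_
  have h : cyclotomic 1 ℤ ∣ Peven 10374 := by
    refine Finset.dvd_prod_of_mem (fun d => cyclotomic d ℤ) ?_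
    rw [Finset.mem_filter]
    refine ⟨Nat.one_mem_divisors.2 (by norm_num), ?_⟩
    simp
  rwa [cyclotomic_one] at h

theorem finite_heights {n : ℕ} (hn : 0 < n) : (heights n).Finite := by
  classical
  have hne : (X ^ n - 1 : ℤ[X]) ≠ 0 := (monic_X_pow_sub_C (1 : ℤ) hn.ne').ne_zero
  have hu : Finite (ℤ[X])ˣ := by
    have : Function.Surjective (Units.map (C : ℤ →+* ℤ[X]).toMonoidHom) := by
      intro u
      obtain ⟨r, hr, hru⟩ := Polynomial.isUnit_iff.1 u.isUnit
      obtain ⟨v, rfl⟩ := hr
      exact ⟨v, Units.ext hru⟩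
    exact Finite.of_surjective _ this
  have := Fintype.ofFinite (ℤ[X])ˣ
  have hF : Finite {f : ℤ[X] // f ∣ X ^ n - 1} :=
    @Finite.of_fintype _ (UniqueFactorizationMonoid.fintypeSubtypeDvd (X ^ n - 1 : ℤ[X]) hne)
  have hfin : {f : ℤ[X] | f ∣ X ^ n - 1}.Finite := hF
  refine (hfin.image height).subset ?_
  rintro h ⟨f, hf, rfl⟩
  exact ⟨f, hf, rfl⟩

theorem result : Squarefree 10374 ∧
    (∃ f : ℤ[X], f ∣ X ^ 10374 - 1 ∧ height (Podd 10374) < height f ∧
      height (Peven 10374) < height f) ∧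
    ∃ b, IsGreatest (heights 10374) b ∧ b ≠ height (Podd 10374) ∧ b ≠ height (Peven 10374) := by
  have h1 : height (Podd 10374) < height ((X - 1) * Podd 10374) :=
    lt_of_le_of_lt height_podd (lt_of_lt_of_le (by norm_num) height_f)
  have h2 : height (Peven 10374) < height ((X - 1) * Podd 10374) :=
    lt_of_le_of_lt height_peven (lt_of_lt_of_le (by norm_num) height_f)
  refine ⟨squarefree_n, ⟨_, f_dvd, h1, h2⟩, ?_⟩
  have hfin := finite_heights (n := 10374) (by norm_num)
  have hmem : height ((X - 1) * Podd 10374) ∈ heights 10374 := ⟨_, f_dvd, rfl⟩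
  have hs := Nat.sSup_mem ⟨_, hmem⟩ hfin.bddAbove
  have hle : height ((X - 1) * Podd 10374) ≤ sSup (heights 10374) :=
    le_csSup hfin.bddAbove hmem
  refine ⟨sSup (heights 10374), ⟨hs, fun x hx => le_csSup hfin.bddAbove hx⟩, ?_, ?_⟩
  · omega
  · omega

end Pool.Agent.Results.MP_7b9a49_nt.FivePrimes
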